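import Pool.Agent.Q5.SH.Stm
import Pool.Agent.Q224.SG.BL
import Pool.Agent.Q241.SG.RC
import Pool.Agent.Q290.SG.SM
import Pool.Agent.Q285.SG.PW

/-!
Project SH: a bad layer gives `b ∈ Kˣ`.
-/

set_option autoImplicit false
set_option linter.unusedSectionVars false

namespace Pool.Agent.Q68.SH

open NumberField Module Polynomial Pool.Agent.Y18.LC Pool.Agent.Q5.SG Pool.Agent.Q5.SH

section

variable {K H : Type} [Field K] [NumberField K] [Field H] [NumberField H] [Algebra K H]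

/-- the action of `g`, additively -/
noncomputable def TH (g : H ≃ₐ[K] H) : Module.End ℤ (Additive Hˣ) :=
  (MonoidHom.toAdditive (MulDistribMulAction.toMonoidHom Hˣ g)).toIntLinearMap

theorem TH_apply (g : H ≃ₐ[K] H) (a : Additive Hˣ) :
    TH g a = Additive.ofMul (g • a.toMul) := rfl

theorem TH_pow (g : H ≃ₐ[K] H) (a : Additive Hˣ) (i : ℕ) :
    (TH g ^ i) a = Additive.ofMul (g ^ i • a.toMul) := by
  induction i with
  | zero => simp
  | succ i ih =>
    rw [pow_succ', Module.End.mul_apply, ih, TH_apply, toMul_ofMul, smul_smul, ← pow_succ']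

/-- the action of a polynomial in `g` -/
noncomputable def EH (g : H ≃ₐ[K] H) (f : ℤ[X]) : Module.End ℤ (Additive Hˣ) := aeval (TH g) f

theorem EH_mul (g : H ≃ₐ[K] H) (f k : ℤ[X]) (a : Additive Hˣ) :
    EH g (f * k) a = EH g f (EH g k a) := by
  unfold EH; rw [map_mul, Module.End.mul_apply]

theorem EH_add (g : H ≃ₐ[K] H) (f k : ℤ[X]) (a : Additive Hˣ) :
    EH g (f + k) a = EH g f a + EH g k a := by
  unfold EH; rw [map_add, LinearMap.add_apply]

theorem EH_sub (g : H ≃ₐ[K] H) (f k : ℤ[X]) (a : Additive Hˣ) :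
    EH g (f - k) a = EH g f a - EH g k a := by
  unfold EH; rw [map_sub, LinearMap.sub_apply]

theorem EH_one (g : H ≃ₐ[K] H) (a : Additive Hˣ) : EH g 1 a = a := by
  unfold EH; rw [map_one, Module.End.one_apply]

theorem EH_X_pow (g : H ≃ₐ[K] H) (i : ℕ) (a : Additive Hˣ) :
    EH g (X ^ i) a = Additive.ofMul (g ^ i • a.toMul) := by
  unfold EH; rw [map_pow, aeval_X, TH_pow]

theorem EH_X (g : H ≃ₐ[K] H) (a : Additive Hˣ) :
    EH g X a = Additive.ofMul (g • a.toMul) := by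
  unfold EH; rw [aeval_X, TH_apply]

theorem EH_sum (g : H ≃ₐ[K] H) (s : Finset ℕ) (e : ℕ → ℕ) (a : Additive Hˣ) :
    EH g (∑ i ∈ s, X ^ e i) a = Additive.ofMul (∏ i ∈ s, g ^ e i • a.toMul) := by
  unfold EH
  rw [map_sum, LinearMap.sum_apply, ofMul_prod]
  refine Finset.sum_congr rfl fun i _ => ?_
  rw [map_pow, aeval_X, TH_pow]

theorem EH_natCast (g : H ≃ₐ[K] H) (n : ℕ) (a : Additive Hˣ) :
    EH g (n : ℤ[X]) a = n • a := by
  unfold EH; rw [map_natCast, Module.End.natCast_apply]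

theorem EH_comm (g : H ≃ₐ[K] H) (f k : ℤ[X]) (a : Additive Hˣ) :
    EH g f (EH g k a) = EH g k (EH g f a) := by
  rw [← EH_mul, mul_comm, EH_mul]

theorem EH_mem (g : H ≃ₐ[K] H) (U : Subgroup Hˣ) (hU : ∀ u ∈ U, g • u ∈ U) (f : ℤ[X])
    {a : Additive Hˣ} (ha : a.toMul ∈ U) : (EH g f a).toMul ∈ U := by
  have hpow : ∀ i : ℕ, g ^ i • a.toMul ∈ U := by
    intro i
    induction i with
    | zero => simpa using ha
    | succ i ih => rw [pow_succ', mul_smul]; exact hU _ ih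
  unfold EH
  rw [aeval_eq_sum_range, LinearMap.sum_apply, toMul_sum]
  refine prod_mem fun i _ => ?_
  rw [LinearMap.smul_apply, TH_pow, toMul_zsmul, toMul_ofMul]
  exact zpow_mem (hpow i) _

end

theorem ca : S_CA := by
  intro p hp hp2 K H _ _ _ _ _ _ hun S g hg m j hfr hj1 hjm hbad
  obtain ⟨z, hz, hzj, hzN, hzp⟩ := hbad
  have hpp : p.Prime := hp.out
  have hp0 : 0 < p := hpp.pos
  -- no torsion
  have htor : ∀ a : Additive Hˣ, p • a = 0 → a = 0 := by
    intro a ha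
    have h1 : a.toMul ^ p ^ 1 = 1 := by
      rw [pow_one, ← toMul_nsmul, ha, toMul_zero]
    have h2 : a.toMul ∈ EU H := by
      apply of_pow_EU (m := p ^ 1) (by positivity)
      rw [h1]; exact one_mem _
    have h3 := eq_one_of_pow hpp hp2 hun 1 h2 h1
    rw [← ofMul_toMul a, h3, ofMul_one]
  obtain ⟨z', hz'⟩ : ∃ z' : Additive Hˣ, z' = Additive.ofMul z := ⟨_, rfl⟩
  have hs2 : ∀ u ∈ CU S H 2, g • u ∈ CU S H 2 := fun u hu => Pool.Agent.Q224.SG.smul_CU S g hu
  have hmono : ∀ u ∈ CU S H 2, u ∈ CU S H 1 := fun u hu => ⟨hu.1, hu.2.mono (by norm_num)⟩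
  have e1 : EH g (X ^ p ^ j - 1) z' = 0 := by
    rw [EH_sub, EH_one, EH_X_pow, hz', toMul_ofMul, hzj, sub_self]
  have e2 : EH g (∑ i ∈ Finset.range p, X ^ (i * p ^ (j - 1))) z' = 0 := by
    rw [EH_sum g (Finset.range p) (fun i => i * p ^ (j - 1)), hz', toMul_ofMul, hzN, ofMul_one]
  -- the chain
  have hQ : ∃ k : ℕ, ∃ w ∈ CU S H 1, p • Additive.ofMul w = EH g ((X - 1) ^ k) z' := by
    refine ⟨p ^ j, ?_⟩
    obtain ⟨r, hr⟩ := exists_add_pow_prime_pow_eq hpp (X : ℤ[X]) (-1) j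
    have h1 : (X - 1 : ℤ[X]) ^ p ^ j = (X ^ p ^ j - 1) + (p : ℤ[X]) * (X * (-1) * r) := by
      rw [sub_eq_add_neg, hr, ((hpp.odd_of_ne_two hp2).pow).neg_one_pow]
      ring
    refine ⟨(EH g (X * (-1) * r) z').toMul, hmono _ (EH_mem g _ hs2 _ (by rw [hz']; exact hz)), ?_⟩
    rw [h1, EH_add, e1, zero_add, ofMul_toMul, EH_mul g (p : ℤ[X]), EH_natCast]
  classical
  obtain ⟨k, hk1, y, hy, hyk⟩ : ∃ k : ℕ, (¬ ∃ w ∈ CU S H 1, p • Additive.ofMul w =
      EH g ((X - 1) ^ k) z') ∧ ∃ w ∈ CU S H 1, p • Additive.ofMul w =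
      EH g ((X - 1) ^ (k + 1)) z' := by
    have h0 : Nat.find hQ ≠ 0 := by
      intro h0
      obtain ⟨w, hw, hw2⟩ := Nat.find_spec hQ
      rw [h0, pow_zero, EH_one, hz'] at hw2
      exact hzp w hw (by
        have := congrArg Additive.toMul hw2
        rwa [toMul_nsmul, toMul_ofMul, toMul_ofMul] at this)
    refine ⟨Nat.find hQ - 1, Nat.find_min hQ (by omega), ?_⟩
    rw [Nat.sub_add_cancel (by omega)]
    exact Nat.find_spec hQ
  obtain ⟨v', hv'⟩ : ∃ v' : Additive Hˣ, v' = EH g ((X - 1) ^ k) z' := ⟨_, rfl⟩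
  obtain ⟨y', hy'⟩ : ∃ y' : Additive Hˣ, y' = Additive.ofMul y := ⟨_, rfl⟩
  have hv2 : v'.toMul ∈ CU S H 2 := by
    rw [hv']; exact EH_mem g _ hs2 _ (by rw [hz']; exact hz)
  have f1 : EH g (X ^ p ^ j - 1) v' = 0 := by rw [hv', EH_comm, e1, map_zero]
  have f2 : EH g (∑ i ∈ Finset.range p, X ^ (i * p ^ (j - 1))) v' = 0 := by
    rw [hv', EH_comm, e2, map_zero]
  have f3 : p • y' = EH g (X - 1) v' := by
    rw [hy', hyk, hv', pow_succ', EH_mul]
  -- `∏ g ^ i y = 1`
  have f4 : EH g (∑ i ∈ Finset.range (p ^ j), X ^ i) y' = 0 := by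
    apply htor
    rw [← map_nsmul, f3, ← EH_mul, geom_sum_mul, f1]
  have hord : orderOf g = p ^ m := by
    rw [orderOf_eq_card_of_forall_mem_zpowers hg, IsGalois.card_aut_eq_finrank, hfr]
  have f5 : EH g (∑ i ∈ Finset.range (p ^ m), X ^ i) y' = 0 := by
    apply htor
    rw [← map_nsmul, f3, ← EH_mul, geom_sum_mul, EH_sub, EH_one, EH_X_pow, ← hord,
      pow_orderOf_eq_one, one_smul, ofMul_toMul, sub_self]
  have hnorm : Algebra.norm K (y : H) = 1 := by
    apply (algebraMap K H).injective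
    rw [Algebra.norm_eq_prod_automorphisms, map_one]
    rw [EH_sum g _ (fun i => i), hy', toMul_ofMul, ← ofMul_one] at f5
    have h1 := Additive.ofMul.injective f5
    have h2 : ∏ σ : H ≃ₐ[K] H, σ • y = 1 := by
      rw [← h1, ← IsCyclic.image_range_orderOf hg, Finset.prod_image, hord]
      intro a ha b hb hab
      exact pow_injOn_Iio_orderOf (by simpa using ha) (by simpa using hb) hab
    have h3 := congrArg (Units.val) h2
    rw [Units.coe_prod, Units.val_one] at h3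
    exact h3
  have hcyc : IsCyclic (H ≃ₐ[K] H) := ⟨g, hg⟩
  obtain ⟨c0, hc0⟩ := groupCohomology.exists_div_of_norm_eq_one hg hnorm
  have hc1 : y = c0 / g • c0 := by
    ext
    rw [← hc0, Units.val_div_eq_div_val]
    rfl
  obtain ⟨c', hc'⟩ : ∃ c' : Additive Hˣ, c' = Additive.ofMul (c0⁻¹) := ⟨_, rfl⟩
  have f6 : EH g (X - 1) c' = y' := by
    rw [EH_sub, EH_one, EH_X, hc', hy', toMul_ofMul, ← ofMul_div, hc1, smul_inv', inv_div_inv]
  have f7 : EH g (X ^ p ^ j - 1) c' = 0 := by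
    rw [← geom_sum_mul, EH_mul, f6, f4]
  -- `b`
  have f8 : EH g (X - 1) (v' - p • c') = 0 := by
    rw [map_sub, map_nsmul, f6, ← f3, sub_self]
  have hfix : g • (v' - p • c').toMul = (v' - p • c').toMul := by
    rw [EH_sub, EH_one, EH_X, sub_eq_zero] at f8
    have := congrArg Additive.toMul f8
    rwa [toMul_ofMul] at this
  have hfixall : ∀ h : H ≃ₐ[K] H, h • (v' - p • c').toMul = (v' - p • c').toMul := by
    intro h
    have h1 : g ∈ MulAction.stabilizer (H ≃ₐ[K] H) (v' - p • c').toMul := hfix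
    have h2 := (Subgroup.zpowers_le.2 h1) (hg h)
    exact h2
  obtain ⟨b0, hb0⟩ : ∃ b0 : K, algebraMap K H b0 = ((v' - p • c').toMul : Hˣ) := by
    have := (IsGalois.mem_range_algebraMap_iff_fixed (F := K)
      (((v' - p • c').toMul : Hˣ) : H)).2 (fun f => by
        have h1 := congrArg Units.val (hfixall f)
        exact h1)
    exact this
  have hb00 : b0 ≠ 0 := by
    rintro rfl
    rw [map_zero] at hb0
    exact (Units.ne_zero _) hb0.symm
  have hb : Units.map (algebraMap K H).toMonoidHom (Units.mk0 b0 hb00) = (v' - p • c').toMul := by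
    ext
    exact hb0
  have hbv : Additive.ofMul (Units.map (algebraMap K H).toMonoidHom (Units.mk0 b0 hb00)) + p • c' =
      v' := by
    rw [hb, ofMul_toMul, sub_add_cancel]
  obtain ⟨β, hβ⟩ : ∃ β : Additive Hˣ, β =
    Additive.ofMul (Units.map (algebraMap K H).toMonoidHom (Units.mk0 b0 hb00)) := ⟨_, rfl⟩
  have hβfix : ∀ i : ℕ, g ^ i • β.toMul = β.toMul := by
    intro i
    rw [hβ, toMul_ofMul, hb]
    exact hfixall _
  refine ⟨Units.mk0 b0 hb00, c'.toMul, v'.toMul, hv2, ?_, ?_, ?_, ?_, ?_⟩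
  · have := congrArg Additive.toMul hbv
    rwa [toMul_add, toMul_ofMul, toMul_nsmul] at this
  · rw [EH_sub, EH_one, EH_X_pow, sub_eq_zero] at f7
    have := congrArg Additive.toMul f7
    rwa [toMul_ofMul] at this
  · have h1 : EH g (∑ i ∈ Finset.range p, X ^ (i * p ^ (j - 1))) β = p • β := by
      rw [EH_sum g (Finset.range p) (fun i => i * p ^ (j - 1)),
        Finset.prod_congr rfl (fun i _ => hβfix _), Finset.prod_const, Finset.card_range,
        ofMul_pow, ofMul_toMul]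
    have h2 : p • (β + EH g (∑ i ∈ Finset.range p, X ^ (i * p ^ (j - 1))) c') = 0 := by
      rw [nsmul_add, ← h1, ← map_nsmul, ← map_add, hβ, hbv, f2]
    have h3 := htor _ h2
    rw [EH_sum g (Finset.range p) (fun i => i * p ^ (j - 1))] at h3
    have h4 := congrArg Additive.toMul h3
    rw [toMul_add, toMul_ofMul, toMul_zero, hβ, toMul_ofMul] at h4
    exact h4
  · have h1 : g • c'.toMul / c'.toMul = y := by
      rw [EH_sub, EH_one, EH_X, hy'] at f6
      have := congrArg Additive.toMul f6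
      rwa [toMul_sub, toMul_ofMul, toMul_ofMul] at this
    rw [h1]; exact hy
  · intro κ hκ
    apply hk1
    have h1 : (Units.map (algebraMap K H).toMonoidHom κ * c'.toMul) ^ p = v'.toMul := by
      rw [mul_pow, ← map_pow, hκ]
      have := congrArg Additive.toMul hbv
      rwa [toMul_add, toMul_ofMul, toMul_nsmul] at this
    refine ⟨Units.map (algebraMap K H).toMonoidHom κ * c'.toMul, ?_, ?_⟩
    · apply Pool.Agent.Q241.SG.rc Pool.Agent.Q290.SG.sm Pool.Agent.Q285.SG.rt p K H hun S 1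
      rw [pow_one, h1]
      exact hmono _ hv2
    · rw [← hv', ← ofMul_pow, h1, ofMul_toMul]

end Pool.Agent.Q68.SH
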